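import Pool.Agent.Helper5.LCU.Stmts

set_option autoImplicit false

open Finset Pool.Agent.Helper89.UB

namespace Pool.Agent.Helper5.LCU

/-- Row K3. -/
theorem st_K3 (hGF : ST_GF) (hK2 : ST_K2) (hCB : ST_CB) : ST_K3 := by
  intro a b ha hb n p q
  have key := hCB (n + 1)
    (fun i => (n.choose i : ℝ) * (∑ r ∈ range (i + 1), (i.choose r : ℝ) * b (q + n - r)))
    (fun i => (n.choose i : ℝ) * (∑ r ∈ range (i + 1), (i.choose r : ℝ) * b (q + 1 + n - r)))
    (fun i => a (p + 1 + i)) (fun i => a (p + i)) ?_ ?_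
  · rw [hGF, hGF, hGF, hGF]
    exact key
  · intro s t hst ht
    have h := hK2 b hb n q s t hst (by omega)
    have h0 : (0 : ℝ) ≤ (n.choose s : ℝ) * (n.choose t : ℝ) := by positivity
    have h1 := mul_le_mul_of_nonneg_left h h0
    linarith
  · intro s t hst ht
    have h := ha.2 (p + s) (p + t - 1) (by omega)
    have e1 : p + t - 1 + 2 = p + 1 + t := by omega
    have e2 : p + t - 1 + 1 = p + t := by omega
    have e3 : p + s + 1 = p + 1 + s := by omega
    rw [e1, e2, e3] at h
    linarith

end Pool.Agent.Helper5.LCU
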