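import Pool.Agent.Helper5.LCU.Real

set_option autoImplicit false

open Finset Pool.Agent.Helper89.UB

namespace Pool.Agent.Helper5.LCU

namespace RR2

theorem pn_big {n : ℕ} (E : Finset (Finset (Fin n))) (S : Finset (Fin n)) (m : ℕ) (hm : n < m) :
    pn E S m = 0 := by
  unfold pn
  rw [Set.ncard_eq_zero (Set.toFinite _), Set.eq_empty_iff_forall_notMem]
  rintro P ⟨hc, hne, hdis, -, -⟩
  have h1 : ∀ B ∈ P, ∃ v : Fin n, v ∈ B := fun B hB => hne B hB
  classical
  obtain ⟨B0, hB0⟩ := Finset.card_pos.1 (show 0 < P.card by omega)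
  obtain ⟨v0, -⟩ := h1 B0 hB0
  haveI : Nonempty (Fin n) := ⟨v0⟩
  choose! g hg using h1
  have h2 : P.card ≤ (Finset.univ : Finset (Fin n)).card := by
    refine Finset.card_le_card_of_injOn g (fun _ _ => Finset.mem_coe.2 (Finset.mem_univ _)) ?_
    intro B hB C hC hBC
    by_contra hne2
    have hd := hdis B hB C hC hne2
    exact Finset.disjoint_left.1 hd (hg B hB) (by
      have := hg C hC
      have h3 : g B = g C := hBC
      rw [h3]
      exact this)
  rw [Finset.card_univ, Fintype.card_fin, hc] at h2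
  omega

theorem coeff_PG {n : ℕ} (E : Finset (Finset (Fin n))) (S : Finset (Fin n)) (m : ℕ) :
    (PG E S).coeff m = (pn E S m : ℝ) := by
  unfold PG
  rw [Polynomial.finsetSum_coeff]
  simp only [Polynomial.coeff_monomial]
  rw [Finset.sum_ite_eq' (range (n + 1)) m (fun m => (pn E S m : ℝ))]
  split_ifs with h
  · rfl
  · rw [Finset.mem_range, not_lt] at h
    rw [pn_big E S m (by omega)]
    simp

end RR2

open RR2

/-- row RR2 -/
theorem st_RR2 (hL : ST_LNS) (hZ : ST_ZB) (h1 : ST_RR1) : ST_RR2 := by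
  intro n E S hS
  classical
  have hex : ∃ K ∈ S.powerset.filter (fun K => Clique E K),
      ∀ K' ∈ S.powerset.filter (fun K => Clique E K), K'.card ≤ K.card := by
    refine Finset.exists_max_image _ (fun K : Finset (Fin n) => K.card) ⟨∅, ?_⟩
    rw [Finset.mem_filter]
    refine ⟨Finset.mem_powerset.2 (Finset.empty_subset _), ?_⟩
    intro u hu
    exact absurd hu (Finset.notMem_empty u)
  obtain ⟨K, hK, hmax⟩ := hex
  rw [Finset.mem_filter, Finset.mem_powerset] at hK
  obtain ⟨hKS, hKc⟩ := hK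
  have hzero : ∀ m, m < K.card → pn E S m = 0 := by
    intro m hm
    have h2 := hL n E S m
    rw [hZ n E S K hKS hKc m hm] at h2
    rcases Nat.mul_eq_zero.1 h2 with h3 | h3
    · exact h3
    · exact absurd h3 (Nat.factorial_ne_zero m)
  have hdvd : (Polynomial.X : Polynomial ℝ) ^ K.card ∣ PG E S := by
    rw [Polynomial.X_pow_dvd_iff]
    intro d hd
    rw [coeff_PG, hzero d hd]
    simp
  obtain ⟨f, hf⟩ := hdvd
  have hcf : ∀ j, f.coeff j = (pn E S (K.card + j) : ℝ) := by
    intro j
    rw [← coeff_PG, hf, add_comm K.card j, Polynomial.coeff_X_pow_mul]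
  have hfs : f.Splits := by
    by_cases h0 : PG E S = 0
    · have hf0 : f = 0 := by
        ext j
        have := hcf j
        rw [← coeff_PG, h0] at this
        rw [this]
        simp
      rw [hf0]
      exact Polynomial.Splits.zero
    · exact Polynomial.Splits.of_dvd hS h0 ⟨_, by rw [hf, mul_comm]⟩
  have hslc := h1 f hfs (fun i => by rw [hcf i]; exact Nat.cast_nonneg _)
  refine ⟨K.card, ⟨K, hKS, hKc, rfl⟩, ?_, ?_⟩
  · intro K' hK' hc'
    exact hmax K' (Finset.mem_filter.2 ⟨Finset.mem_powerset.2 hK', hc'⟩)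
  · intro i j hij
    have h2 := hslc.2 i j hij
    simp only [hcf] at h2
    exact_mod_cast h2

end Pool.Agent.Helper5.LCU

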